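import Pool.Agent.H52.V.S8.H484R2.Ind

/-! Extension of homomorphisms `𝓞 E → 𝔽_p` to `𝓞 E'`. -/

set_option autoImplicit false
open Polynomial NumberField Module

namespace Pool.Agent.H484R2

lemma hom_finite (K : Type) [Field K] [NumberField K] (p : ℕ) [Fact p.Prime] :
    Finite (𝓞 K →+* ZMod p) := by
  refine Finite.of_injective
    (fun φ : 𝓞 K →+* ZMod p => fun i => φ (RingOfIntegers.basis K i)) ?_
  intro φ ψ h
  have h1 : φ.toAddMonoidHom.toIntLinearMap = ψ.toAddMonoidHom.toIntLinearMap := by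
    refine (RingOfIntegers.basis K).ext fun i => ?_
    exact congrFun h i
  ext x
  exact LinearMap.congr_fun h1 x

section

variable {E : Type} [Field E] [NumberField E] {b c : ℤ}
variable {E' : Type} [Field E'] [NumberField E'] [Algebra E E']
variable {y : 𝓞 E} {v : 𝓞 E'}

lemma v_notMem (hD : ¬ IsSquare (4 * (y : E) + b ^ 2 - 4 * c))
    (hv : (v : E') ^ 2 + b * v + c = algebraMap E E' y) (e : E) :
    (v : E') ≠ algebraMap E E' e := by
  intro h
  apply hD
  have hinj : Function.Injective (algebraMap E E') := (algebraMap E E').injective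
  refine ⟨2 * e + b, hinj ?_⟩
  simp only [map_sub, map_add, map_mul, map_pow, map_intCast, map_ofNat]
  rw [← h, ← hv]
  ring

lemma uniq_repr (hD : ¬ IsSquare (4 * (y : E) + b ^ 2 - 4 * c))
    (hv : (v : E') ^ 2 + b * v + c = algebraMap E E' y) {α β α' β' : 𝓞 E}
    (h : algebraMap (𝓞 E) (𝓞 E') α + algebraMap (𝓞 E) (𝓞 E') β * v =
      algebraMap (𝓞 E) (𝓞 E') α' + algebraMap (𝓞 E) (𝓞 E') β' * v) : α = α' ∧ β = β' := by
  have hinj : Function.Injective (algebraMap E E') := (algebraMap E E').injective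
  have h1 : algebraMap E E' (α : E) + algebraMap E E' (β : E) * (v : E') =
      algebraMap E E' (α' : E) + algebraMap E E' (β' : E) * (v : E') := by
    exact congrArg (fun z : 𝓞 E' => (z : E')) h
  have hβ : β = β' := by
    by_contra hne
    have hne' : (β : E) - β' ≠ 0 := by
      intro h0
      exact hne (RingOfIntegers.coe_injective (sub_eq_zero.mp h0))
    apply v_notMem hD hv (((α' : E) - α) / (β - β'))
    rw [map_div₀, eq_div_iff (by rwa [Ne, map_eq_zero_iff _ hinj]), map_sub, map_sub]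
    linear_combination h1
  subst hβ
  refine ⟨?_, rfl⟩
  have h2 : algebraMap E E' (α : E) = algebraMap E E' (α' : E) := add_right_cancel h1
  exact RingOfIntegers.coe_injective (hinj h2)

/-- an integer `N ≠ 0` with `N 𝓞_{E'} ⊆ 𝓞_E + 𝓞_E v` and `2 D ∣ N` -/
lemma exists_index (hD : ¬ IsSquare (4 * (y : E) + b ^ 2 - 4 * c))
    (hv : (v : E') ^ 2 + b * v + c = algebraMap E E' y)
    (σ : E' →ₐ[E] E') (hσ : σ (v : E') = -b - v)
    (hspan : ∀ z : E', ∃ α β : E, z = algebraMap E E' α + algebraMap E E' β * v) :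
    ∃ N : ℕ, N ≠ 0 ∧ (2 * (4 * y + b ^ 2 - 4 * c) : 𝓞 E) ∣ (N : 𝓞 E) ∧
      ∀ z : 𝓞 E', ∃ α β : 𝓞 E, (N : 𝓞 E') * z =
        algebraMap (𝓞 E) (𝓞 E') α + algebraMap (𝓞 E) (𝓞 E') β * v := by
  have hinj : Function.Injective (algebraMap E E') := (algebraMap E E').injective
  set D₀ : 𝓞 E := 4 * y + b ^ 2 - 4 * c with hD₀
  have hD₀E : (D₀ : E) = 4 * (y : E) + b ^ 2 - 4 * c := by
    rw [hD₀]; simp only [map_sub, map_add, map_mul, map_pow, map_intCast, map_ofNat]
  have hD₀ne : D₀ ≠ 0 := by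
    intro h
    apply hD
    rw [← hD₀E, h]
    exact ⟨0, by simp⟩
  have hmem := Ideal.absNorm_mem (Ideal.span {D₀})
  rw [Ideal.mem_span_singleton] at hmem
  obtain ⟨e, he⟩ := hmem
  refine ⟨2 * Ideal.absNorm (Ideal.span {D₀}), ?_, ⟨e, ?_⟩, ?_⟩
  · have : Ideal.absNorm (Ideal.span {D₀}) ≠ 0 := by
      rw [Ne, Ideal.absNorm_eq_zero_iff, Ideal.span_singleton_eq_bot]
      exact hD₀ne
    omega
  · push_cast
    rw [he]
    ring
  · intro z
    obtain ⟨α, β, hz⟩ := hspan z
    have hσz : σ (z : E') = algebraMap E E' α + algebraMap E E' β * (-b - v) := by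
      rw [hz, map_add, map_mul, AlgHom.commutes, AlgHom.commutes, hσ]
    have hzint : IsIntegral ℤ (z : E') := z.isIntegral_coe
    have hvint : IsIntegral ℤ (v : E') := v.isIntegral_coe
    have hσint : IsIntegral ℤ (σ (z : E')) := map_isIntegral_int (σ : E' →+* E') hzint
    have hDint : IsIntegral ℤ (algebraMap E E' (D₀ : E)) :=
      map_isIntegral_int (algebraMap E E') D₀.isIntegral_coe
    have hDeq : algebraMap E E' (D₀ : E) = (2 * (v : E') + b) ^ 2 := by
      rw [hD₀E]
      simp only [map_sub, map_add, map_mul, map_pow, map_intCast, map_ofNat]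
      rw [← hv]
      ring
    have hbint : IsIntegral ℤ ((b : ℤ) : E') := isIntegral_algebraMap (R := ℤ) (x := b)
    have h2int : IsIntegral ℤ (2 : E') := by
      have := isIntegral_algebraMap (R := ℤ) (A := E') (x := 2)
      simpa using this
    -- B = β D
    have hB : IsIntegral ℤ (β * (D₀ : E)) := by
      rw [← isIntegral_algebraMap_iff hinj]
      have : algebraMap E E' (β * (D₀ : E)) = ((z : E') - σ z) * (2 * (v : E') + b) := by
        rw [map_mul, hDeq, hσz, hz]
        ring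
      rw [this]
      exact (hzint.sub hσint).mul ((h2int.mul hvint).add hbint)
    have hA : IsIntegral ℤ (2 * α * (D₀ : E)) := by
      rw [← isIntegral_algebraMap_iff hinj]
      have : algebraMap E E' (2 * α * (D₀ : E)) =
          algebraMap E E' (D₀ : E) * ((z : E') + σ z) + b * algebraMap E E' (β * (D₀ : E)) := by
        rw [hσz, hz]
        simp only [map_mul, map_ofNat]
        ring
      rw [this]
      exact (hDint.mul (hzint.add hσint)).add (hbint.mul (map_isIntegral_int (algebraMap E E') hB))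
    obtain ⟨A₀, hA₀⟩ : ∃ A₀ : 𝓞 E, (A₀ : E) = 2 * α * (D₀ : E) := ⟨⟨_, hA⟩, rfl⟩
    obtain ⟨B₀, hB₀⟩ : ∃ B₀ : 𝓞 E, (B₀ : E) = β * (D₀ : E) := ⟨⟨_, hB⟩, rfl⟩
    refine ⟨e * A₀, e * (2 * B₀), ?_⟩
    apply RingOfIntegers.coe_injective
    have heE : ((Ideal.absNorm (Ideal.span {D₀}) : ℕ) : E') =
        algebraMap E E' (D₀ : E) * algebraMap E E' (e : E) := by
      have h1 := congrArg (fun z : 𝓞 E => algebraMap E E' (z : E)) he
      simpa using h1
    have e1 : ∀ w : 𝓞 E, ((algebraMap (𝓞 E) (𝓞 E') w : 𝓞 E') : E') = algebraMap E E' (w : E) :=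
      fun w => rfl
    have hlhs : ((((2 * Ideal.absNorm (Ideal.span {D₀}) : ℕ) : 𝓞 E') * z : 𝓞 E') : E') =
        2 * ((Ideal.absNorm (Ideal.span {D₀}) : ℕ) : E') * (z : E') := by
      push_cast
      simp only [map_mul, map_natCast, map_ofNat]
    have hrhs : ((algebraMap (𝓞 E) (𝓞 E') (e * A₀) +
        algebraMap (𝓞 E) (𝓞 E') (e * (2 * B₀)) * v : 𝓞 E') : E') =
        algebraMap E E' (e : E) * algebraMap E E' (2 * α * (D₀ : E)) +
        algebraMap E E' (e : E) * (2 * algebraMap E E' (β * (D₀ : E))) * (v : E') := by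
      rw [← hA₀, ← hB₀, ← e1, ← e1, ← e1]
      simp only [map_add, map_mul, map_ofNat]
    change ((((2 * Ideal.absNorm (Ideal.span {D₀}) : ℕ) : 𝓞 E') * z : 𝓞 E') : E') =
      ((algebraMap (𝓞 E) (𝓞 E') (e * A₀) +
        algebraMap (𝓞 E) (𝓞 E') (e * (2 * B₀)) * v : 𝓞 E') : E')
    rw [hlhs, hrhs, heE, hz]
    simp only [map_mul, map_ofNat]
    ring

end

end Pool.Agent.H484R2
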