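import Pool.Agent.H52.V.S8.H484R2.Zeta
import Pool.Agent.H52.V.S8.H484R2.Mean
import Pool.Agent.H52.V.S8.H332R2.PIT.Main

/-! The prime ideal theorem. -/

set_option autoImplicit false

namespace Pool.Agent.H484R2

theorem pit : PIT := fun K _ _ => H332.PIT.pit_of_continuation (continuation K)

end Pool.Agent.H484R2
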